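import Pool.Agent.Helper75.FS.St

set_option autoImplicit false

/-! Project FS, module F1. -/

namespace Pool.Agent.Helper19.FS

open Filter Pool.Agent.Helper75.FS

theorem hF1 (hB4 : StB4) (hB6 : StB6) : StF1 := by
  intro r hr
  apply le_antisymm
  · refine le_iInf fun ρ => ?_
    by_contra hlt
    rw [not_le] at hlt
    obtain ⟨x, hx1, hx2⟩ := EReal.lt_iff_exists_real_btwn.1 hlt
    have hx : LL r ρ < x := by exact_mod_cast hx1
    have hfr : ∃ᶠ n : ℕ in atTop, ((mm n r : ℝ) : EReal) ≤ ((x : ℝ) : EReal) := by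
      rw [frequently_atTop]
      intro N
      obtain ⟨n, hn, hm⟩ := (hB6 r hr ρ).1 (x - LL r ρ) (by linarith) N
      refine ⟨n, hn, ?_⟩
      have : mm n r ≤ x := by linarith
      exact_mod_cast this
    exact absurd (liminf_le_of_frequently_le' hfr) (not_le.2 hx2)
  · by_contra hlt
    rw [not_le] at hlt
    obtain ⟨x, hx1, hx2⟩ := EReal.lt_iff_exists_real_btwn.1 hlt
    obtain ⟨y, hy1, hy2⟩ := EReal.lt_iff_exists_real_btwn.1 hx2
    have hxy : x < y := by exact_mod_cast hy1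
    have hy : ∀ ρ : ℕ, ρ < r → y < LL r ρ := by
      intro ρ hρ
      have h1 : ((y : ℝ) : EReal) < ((LL r ρ : ℝ) : EReal) :=
        lt_of_lt_of_le hy2 (iInf_le (fun ρ : Fin r => ((LL r ρ : ℝ) : EReal)) ⟨ρ, hρ⟩)
      exact_mod_cast h1
    obtain ⟨N, hN⟩ := hB4 r hr (y - x) (by linarith)
    have hev : ∀ᶠ n : ℕ in atTop, ((x : ℝ) : EReal) ≤ ((mm n r : ℝ) : EReal) := by
      rw [eventually_atTop]
      refine ⟨N, fun n hn => ?_⟩
      obtain ⟨ρ, hρ, h1, -⟩ := hN n hn
      have h2 := hy ρ hρ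
      have : x ≤ mm n r := by linarith
      exact_mod_cast this
    exact absurd (le_liminf_of_le (by isBoundedDefault) hev) (not_le.2 hx1)

end Pool.Agent.Helper19.FS
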